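import Mathlib
import Pool.Agent.Helper36.NB.Asm7

/-!
# Conjecture B of Sambale for real 2-blocks with trivial fusion (nilpotent blocks)

`O` is a valuation ring of `ℂ` with `2` in its maximal ideal and residue field `k`, `e` is a block
idempotent of `O[G]` with defect pair `(D, E)`, `D ≠ E`. There is a bijection `Γ : Irr(D) → Irr(e)`
with `Γ(b)(1) = n b(1)`, `n₂ = |G : D|₂`, such that the Frobenius-Schur indicator of `Γ(b)` is
`(1 / |D|) ∑_{y ∈ E ∖ D} b(y²)`.
-/

open scoped BigOperators
open Classical

namespace Pool.Agent.Results.MP_363b1d_al.NilpotentIrr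

section Definitions

variable {R : Type} [CommRing R] {G : Type} [Group G]

/-- The group element `g` as an element of `R[G]`. -/
noncomputable def el (R : Type) [CommRing R] {G : Type} [Group G] (g : G) : MonoidAlgebra R G :=
  MonoidAlgebra.single g 1

/-- The inversion `∑ a_g g ↦ ∑ a_g g⁻¹` of `R[G]`. -/
noncomputable def inv' (a : MonoidAlgebra R G) : MonoidAlgebra R G :=
  MonoidAlgebra.mapDomain (fun g => g⁻¹) a

/-- `a` commutes with the elements of the subgroup `D`. -/
def Cen (D : Subgroup G) (a : MonoidAlgebra R G) : Prop :=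
  ∀ u ∈ D, el R u * a = a * el R u

/-- The inclusion `R[H] → R[G]` for a subgroup `H`. -/
noncomputable def incl (R : Type) [CommRing R] {G : Type} [Group G] (H : Subgroup G) :
    MonoidAlgebra R H →+* MonoidAlgebra R G :=
  MonoidAlgebra.mapDomainRingHom R H.subtype

/-- The restriction of coefficients `R[G] → R[H]` to a subgroup `H`. -/
noncomputable def res (H : Subgroup G) (a : MonoidAlgebra R G) : MonoidAlgebra R H :=
  MonoidAlgebra.comapDomain (Subtype.val : H → G) Subtype.val_injective a

/-- `b` is a block idempotent of `R[G]`: a primitive idempotent of the centre. -/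
def IsBlock (b : MonoidAlgebra R G) : Prop :=
  b ≠ 0 ∧ b * b = b ∧ (∀ a, a * b = b * a) ∧
    ∀ f : MonoidAlgebra R G, f * f = f → (∀ a, a * f = f * a) → f * b = 0 ∨ f * b = b

/-- The reduction `R[G] → k[G]` modulo the maximal ideal of the local ring `R`. -/
noncomputable def toK [IsLocalRing R] :
    MonoidAlgebra R G →+* MonoidAlgebra (IsLocalRing.ResidueField R) G :=
  MonoidAlgebra.mapRingHom G (IsLocalRing.residue R)

/-- The class sum of `x`. -/
noncomputable def classSum (R : Type) [CommRing R] {G : Type} [Group G] [Fintype G] (x : G) :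
    MonoidAlgebra R G :=
  ∑ g ∈ Finset.univ.filter (fun g : G => IsConj x g), el R g

/-- `x` is a defect class representative of the block `e` of `R[G]`: an element of odd order
whose coefficient in `e` is a unit and whose class sum is not nilpotent in `k[G]e`. -/
structure IsDefectClass [IsLocalRing R] [Fintype G] (e : MonoidAlgebra R G) (x : G) : Prop where
  odd : Odd (orderOf x)
  unit : IsLocalRing.residue R (e.coeff x) ≠ 0
  notNil : ¬ IsNilpotent (toK (classSum R x * e))

/-- `D ≤ E` are Sylow `2`-subgroups of `C_G(x)` and of the extended centraliser of `x`, the group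
of all `g` with `g x g⁻¹ = x` or `g x g⁻¹ = x⁻¹`. -/
def IsDefectPair (x : G) (D E : Subgroup G) : Prop :=
  D ≤ E ∧ D ≤ Subgroup.centralizer {x} ∧ (∀ g ∈ E, g * x * g⁻¹ = x ∨ g * x * g⁻¹ = x⁻¹) ∧
    Nat.card D = 2 ^ (Nat.card (Subgroup.centralizer {x})).factorization 2 ∧
    Nat.card E = 2 ^ (Nat.card {g : G // g * x * g⁻¹ = x ∨ g * x * g⁻¹ = x⁻¹}).factorization 2

/-- Any two irreducible representations of `H` over `k` in which `b` acts as the identity are
equivalent. -/
structure OneSimple {k : Type} [Field k] {H : Type} [Group H] (b : MonoidAlgebra k H) : Prop where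
  equiv : ∀ (V W : Type) [AddCommGroup V] [Module k V] [AddCommGroup W] [Module k W]
    (ρ : Representation k H V) (σ : Representation k H W), ρ.IsIrreducible → σ.IsIrreducible →
      ρ.asAlgebraHom b = 1 → σ.asAlgebraHom b = 1 → Nonempty (ρ.Equiv σ)

/-- `q` is a source idempotent of the block `e` of `k[G]` for the subgroup `D`: a primitive
idempotent of `k[G]^D`, contained in `k[G]e`, with nonzero image under the Brauer homomorphism
`k[G]^D → k[C_G(D)]`. -/
def IsSource {k : Type} [Field k] (D : Subgroup G) (e q : MonoidAlgebra k G) : Prop :=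
  q * q = q ∧ Cen D q ∧ q * e = q ∧
    (∀ f, f * f = f → Cen D f → q * f = f → f * q = f → f = 0 ∨ f = q) ∧
    res (Subgroup.centralizer (D : Set G)) q ≠ 0

/-- The Brauer element `(u, b)`, where `b` is a block of `k[C_G(u)]`, is contained in the
maximal Brauer pair defined by the source idempotent `q`. -/
def IsBelow {k : Type} [Field k] (q : MonoidAlgebra k G) (u : G)
    (b : MonoidAlgebra k (Subgroup.centralizer {u})) : Prop :=
  IsBlock b ∧ res (Subgroup.centralizer {u}) q * b ≠ 0

/-- The two properties of the Brauer elements of a nilpotent block with defect group `D`: the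
blocks `b_u` have one simple module, and the fusion is controlled by `D`. -/
structure NilpotentElements {k : Type} [Field k] (D : Subgroup G) (e : MonoidAlgebra k G) :
    Prop where
  simple : OneSimple e
  one : ∀ q, IsSource D e q → ∀ u ∈ D,
    ∀ b : MonoidAlgebra k (Subgroup.centralizer {u}), IsBelow q u b → OneSimple b
  fus : ∀ q, IsSource D e q → ∀ u ∈ D, ∀ v ∈ D,
    ∀ (b : MonoidAlgebra k (Subgroup.centralizer {u}))
      (b' : MonoidAlgebra k (Subgroup.centralizer {v})), IsBelow q u b → IsBelow q v b' →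
    ∀ g : G, g * u * g⁻¹ = v → el k g * incl k _ b * el k g⁻¹ = incl k _ b' →
    ∃ d ∈ D, d * u * d⁻¹ = v

/-- The complex irreducible representations of `G`, in the form of a Wedderburn decomposition of
`ℂ[G]`: representations `rep a` by matrices of degrees `d a`, such that `x ↦ (rep a x)` is an
isomorphism of `ℂ[G]` with the product of the `r` matrix algebras. -/
structure IrrData (G : Type) [Group G] where
  r : ℕ
  d : Fin r → ℕ
  pos : ∀ a, 0 < d a
  rep : ∀ a, MonoidAlgebra ℂ G →ₐ[ℂ] Matrix (Fin (d a)) (Fin (d a)) ℂ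
  bijective : Function.Bijective fun x a => rep a x

/-- The `a`-th irreducible character of `G`. -/
noncomputable def IrrData.ch (I : IrrData G) (a : Fin I.r) (g : G) : ℂ :=
  Matrix.trace (I.rep a (el ℂ g))

/-- The Frobenius-Schur indicator of the `a`-th irreducible character of `G`. -/
noncomputable def fsInd [Fintype G] (I : IrrData G) (a : Fin I.r) : ℂ :=
  (∑ g : G, I.ch a (g * g)) / (Nat.card G : ℂ)

/-- The `a`-th irreducible character of `G` belongs to the block `e` of `R[G]`: `e` does not act as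
`0`. -/
def InBlock [Algebra R ℂ] (e : MonoidAlgebra R G) (I : IrrData G) (a : Fin I.r) : Prop :=
  I.rep a (MonoidAlgebra.mapRingHom G (algebraMap R ℂ) e) ≠ 0

/-- The sum of `η(y²)` over the `y ∈ E ∖ D` (with `y² ∈ D`), divided by `|D|`. -/
noncomputable def extIndicator [Fintype G] (D E : Subgroup G) (η : D → ℂ) : ℂ :=
  (∑ y ∈ Finset.univ.filter (fun y : G => y ∈ E ∧ y ∉ D),
    if h : y * y ∈ D then η ⟨y * y, h⟩ else 0) / (Nat.card D : ℂ)

/-- `Γ` is a bijection `Irr(D) → Irr(e)` with `Γ(b)(1) = n b(1)`, `n₂ = |G : D|₂`, and with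
indicators `ε(Γ(b)) = (1 / |D|) ∑_{y ∈ E ∖ D} b(y²)`. -/
structure IsGood [Algebra R ℂ] [Fintype G] (e : MonoidAlgebra R G) (D E : Subgroup G)
    (I : IrrData G) (J : IrrData D) (n : ℕ) (Γ : Fin J.r → Fin I.r) : Prop where
  injective : Function.Injective Γ
  range : ∀ a, InBlock e I a ↔ ∃ b, Γ b = a
  two : n.factorization 2 + (Nat.card D).factorization 2 = (Nat.card G).factorization 2
  degree : ∀ b, I.d (Γ b) = n * J.d b
  indicator : ∀ b, fsInd I (Γ b) = extIndicator D E (J.ch b)

end Definitions

theorem result (O : ValuationSubring ℂ) (h2 : (2 : O) ∈ IsLocalRing.maximalIdeal O)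
    {G : Type} [Group G] [Fintype G]
    -- a real block `e` of `O[G]`
    (e : MonoidAlgebra O G) (he : IsBlock e) (her : inv' e = e)
    -- with defect pair `(D, E)`, `D ≠ E`
    (x : G) (hx : IsDefectClass e x) (D E : Subgroup G) (hDE : IsDefectPair x D E)
    (hne : D ≠ E)
    -- and with the properties of a nilpotent block
    (hnil : NilpotentElements D (toK e))
    -- Wedderburn decompositions of `ℂ[G]` and `ℂ[D]`, i.e. the sets `Irr(G)` and `Irr(D)`
    (I : IrrData G) (J : IrrData D) : ∃ n Γ, IsGood e D E I J n Γ := by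
  obtain ⟨h1, h2', h3⟩ := hx
  obtain ⟨k1, k2, k3, k4, k5⟩ := hDE
  obtain ⟨n1, n2, n3⟩ := hnil
  obtain ⟨n, Γ, hn, hΓ⟩ := (Pool.Agent.Helper36.NB.block_main O h2 e he her x ⟨h1, h2', h3⟩ D E
    ⟨k1, k2, k3, k4, k5⟩ hne
    ⟨fun _ _ => n1.equiv _ _, fun q hq u hu b hb _ _ => (n2 q hq u hu b hb).equiv _ _, n3⟩
    ⟨I.r, I.d, I.pos, AlgEquiv.ofBijective (AlgHom.pi I.rep) I.bijective⟩
    ⟨J.r, J.d, J.pos, AlgEquiv.ofBijective (AlgHom.pi J.rep) J.bijective⟩).1
  exact ⟨n, fun b => (Γ b).1, fun b b' h => Γ.injective (Subtype.ext h),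
    fun a => ⟨fun ha => ⟨Γ.symm ⟨a, ha⟩, congrArg Subtype.val (Γ.apply_symm_apply ⟨a, ha⟩)⟩,
      fun ⟨b, hb⟩ => hb ▸ (Γ b).2⟩,
    hn, fun b => (hΓ b).1, fun b => (hΓ b).2⟩

end Pool.Agent.Results.MP_363b1d_al.NilpotentIrr
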