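import Mathlib
import Pool.Agent.Helper32.NO.OrbFull

/-!
# Conjecture C of Sambale and its orbit-wise refinement for real nilpotent blocks

`O` is a valuation ring of `ℂ` with `2` in its maximal ideal and residue field `k`.  The
Frobenius-Schur indicator of the projective indecomposable character `Φ` of a real nilpotent
`2`-block of an arbitrary finite group `G` is the number of involutions in `E ∖ D`, where
`(D, E)` is the defect pair, `D ≠ E`; and for every `u` with `u² = 1` the multiplicity of the
trivial character in the restriction of `Φ` to `C_G(u)` is the number of the conjugates of `u` in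
`E ∖ D`.
-/

open scoped BigOperators
open Classical

namespace Pool.Agent.Results.MP_363b1d_al.NilpotentOrb

section Definitions

variable {R : Type} [CommRing R] {G : Type} [Group G]

/-- The group element `g` as an element of `R[G]`. -/
noncomputable def el (R : Type) [CommRing R] {G : Type} [Group G] (g : G) : MonoidAlgebra R G :=
  MonoidAlgebra.single g 1

/-- The inversion `∑ a_g g ↦ ∑ a_g g⁻¹` of `R[G]`. -/
noncomputable def inv' (a : MonoidAlgebra R G) : MonoidAlgebra R G :=
  MonoidAlgebra.mapDomain (fun g => g⁻¹) a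

/-- `a` commutes with the elements of the subgroup `D`. -/
def Cen (D : Subgroup G) (a : MonoidAlgebra R G) : Prop :=
  ∀ u ∈ D, el R u * a = a * el R u

/-- The inclusion `R[H] → R[G]` for a subgroup `H`. -/
noncomputable def incl (R : Type) [CommRing R] {G : Type} [Group G] (H : Subgroup G) :
    MonoidAlgebra R H →+* MonoidAlgebra R G :=
  MonoidAlgebra.mapDomainRingHom R H.subtype

/-- The restriction of coefficients `R[G] → R[H]` to a subgroup `H`. -/
noncomputable def res (H : Subgroup G) (a : MonoidAlgebra R G) : MonoidAlgebra R H :=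
  MonoidAlgebra.comapDomain (Subtype.val : H → G) Subtype.val_injective a

/-- `b` is a block idempotent of `R[G]`: a primitive idempotent of the centre. -/
def IsBlock (b : MonoidAlgebra R G) : Prop :=
  b ≠ 0 ∧ b * b = b ∧ (∀ a, a * b = b * a) ∧
    ∀ f : MonoidAlgebra R G, f * f = f → (∀ a, a * f = f * a) → f * b = 0 ∨ f * b = b

/-- `j` is a primitive idempotent of `R[G]`. -/
def IsPrimitiveIdem (j : MonoidAlgebra R G) : Prop :=
  j ≠ 0 ∧ j * j = j ∧ ∀ f, f * f = f → f * j = f → j * f = f → f = 0 ∨ f = j

/-- The reduction `R[G] → k[G]` modulo the maximal ideal of the local ring `R`. -/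
noncomputable def toK [IsLocalRing R] :
    MonoidAlgebra R G →+* MonoidAlgebra (IsLocalRing.ResidueField R) G :=
  MonoidAlgebra.mapRingHom G (IsLocalRing.residue R)

/-- The class sum of `x`. -/
noncomputable def classSum (R : Type) [CommRing R] {G : Type} [Group G] [Fintype G] (x : G) :
    MonoidAlgebra R G :=
  ∑ g ∈ Finset.univ.filter (fun g : G => IsConj x g), el R g

/-- `x` is a defect class representative of the block `e` of `R[G]`: an element of odd order
whose coefficient in `e` is a unit and whose class sum is not nilpotent in `k[G]e`. -/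
structure IsDefectClass [IsLocalRing R] [Fintype G] (e : MonoidAlgebra R G) (x : G) : Prop where
  odd : Odd (orderOf x)
  unit : IsLocalRing.residue R (e.coeff x) ≠ 0
  notNil : ¬ IsNilpotent (toK (classSum R x * e))

/-- `D ≤ E` are Sylow `2`-subgroups of `C_G(x)` and of the extended centraliser of `x`, the group
of all `g` with `g x g⁻¹ = x` or `g x g⁻¹ = x⁻¹`. -/
def IsDefectPair (x : G) (D E : Subgroup G) : Prop :=
  D ≤ E ∧ D ≤ Subgroup.centralizer {x} ∧ (∀ g ∈ E, g * x * g⁻¹ = x ∨ g * x * g⁻¹ = x⁻¹) ∧
    Nat.card D = 2 ^ (Nat.card (Subgroup.centralizer {x})).factorization 2 ∧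
    Nat.card E = 2 ^ (Nat.card {g : G // g * x * g⁻¹ = x ∨ g * x * g⁻¹ = x⁻¹}).factorization 2

/-- Any two irreducible representations of `H` over `k` in which `b` acts as the identity are
equivalent. -/
structure OneSimple {k : Type} [Field k] {H : Type} [Group H] (b : MonoidAlgebra k H) : Prop where
  equiv : ∀ (V W : Type) [AddCommGroup V] [Module k V] [AddCommGroup W] [Module k W]
    (ρ : Representation k H V) (σ : Representation k H W), ρ.IsIrreducible → σ.IsIrreducible →
      ρ.asAlgebraHom b = 1 → σ.asAlgebraHom b = 1 → Nonempty (ρ.Equiv σ)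

/-- `q` is a source idempotent of the block `e` of `k[G]` for the subgroup `D`: a primitive
idempotent of `k[G]^D`, contained in `k[G]e`, with nonzero image under the Brauer homomorphism
`k[G]^D → k[C_G(D)]`. -/
def IsSource {k : Type} [Field k] (D : Subgroup G) (e q : MonoidAlgebra k G) : Prop :=
  q * q = q ∧ Cen D q ∧ q * e = q ∧
    (∀ f, f * f = f → Cen D f → q * f = f → f * q = f → f = 0 ∨ f = q) ∧
    res (Subgroup.centralizer (D : Set G)) q ≠ 0

/-- The block `b` of `k[H]`, where `H = C_G(Q)`, belongs to the maximal Brauer pair defined by the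
source idempotent `q`: `(Q, b)` is contained in it. -/
def IsBelowQ {k : Type} [Field k] (q : MonoidAlgebra k G) (Q : Subgroup G)
    (b : MonoidAlgebra k (Subgroup.centralizer (Q : Set G))) : Prop :=
  IsBlock b ∧ res (Subgroup.centralizer (Q : Set G)) q * b ≠ 0

/-- The block `e` with defect group `D` is nilpotent: the fusion of the Brauer pairs is controlled
by `D`, and the blocks `b_Q` (`Q ≤ D`) have one simple module. -/
structure NilpotentPairs {k : Type} [Field k] (D : Subgroup G) (e : MonoidAlgebra k G) : Prop where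
  simple : OneSimple e
  one : ∀ q, IsSource D e q → ∀ Q : Subgroup G, Q ≤ D →
    ∀ b : MonoidAlgebra k (Subgroup.centralizer (Q : Set G)), IsBelowQ q Q b → OneSimple b
  fus : ∀ q, IsSource D e q → ∀ Q Q' : Subgroup G, Q ≤ D → Q' ≤ D →
    ∀ (b : MonoidAlgebra k (Subgroup.centralizer (Q : Set G)))
      (b' : MonoidAlgebra k (Subgroup.centralizer (Q' : Set G))),
    IsBelowQ q Q b → IsBelowQ q Q' b' →
    ∀ g : G, (∀ u, u ∈ Q ↔ g * u * g⁻¹ ∈ Q') →
    el k g * incl k _ b * el k g⁻¹ = incl k _ b' →
    ∃ d ∈ D, ∀ u ∈ Q, d * u * d⁻¹ = g * u * g⁻¹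

/-- `Φ` is the character of the projective `R[G]`-module `R[G] j`: `Φ(g)` is the trace of
`x ↦ g x j` on `ℂ[G]`. -/
structure IsPim [Algebra R ℂ] (j : MonoidAlgebra R G) (Φ : G → ℂ) : Prop where
  eq : ∀ g, Φ g = LinearMap.trace ℂ (MonoidAlgebra ℂ G)
    (LinearMap.mulLeftRight ℂ (el ℂ g, MonoidAlgebra.mapRingHom G (algebraMap R ℂ) j))

end Definitions

theorem result (O : ValuationSubring ℂ) (h2 : (2 : O) ∈ IsLocalRing.maximalIdeal O)
    {G : Type} [Group G] [Fintype G]
    -- a real block `e` of `O[G]`
    (e : MonoidAlgebra O G) (he : IsBlock e) (her : inv' e = e)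
    -- with defect pair `(D, E)`, `D ≠ E`
    (x : G) (hx : IsDefectClass e x) (D E : Subgroup G) (hDE : IsDefectPair x D E)
    (hne : D ≠ E)
    -- the block is nilpotent
    (hnil : NilpotentPairs D (toK e))
    -- the projective indecomposable character `Φ` of the block, afforded by `O[G] j`
    (j : MonoidAlgebra O G) (hj : IsPrimitiveIdem j) (hje : j * e = j)
    (Φ : G → ℂ) (hΦ : IsPim j Φ) :
    ((∑ g : G, Φ (g * g)) / (Nat.card G : ℂ) =
      (Nat.card {y : G // y ∈ E ∧ y ∉ D ∧ y * y = 1} : ℂ)) ∧
    -- the orbit-wise identity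
    ∀ u : G, u * u = 1 → (∑ s : Subgroup.centralizer {u}, Φ s) /
        (Nat.card (Subgroup.centralizer {u}) : ℂ) =
      (Nat.card {y : G // y ∈ E ∧ y ∉ D ∧ IsConj u y} : ℂ) := by
  obtain ⟨h1, h2', h3⟩ := hx
  obtain ⟨k1, k2, k3, k4, k5⟩ := hDE
  obtain ⟨n1, n2, n3⟩ := hnil
  obtain rfl : Φ = Helper36.NB.pim O j := funext fun g =>
    (hΦ.eq g).trans (congrArg _ (LinearMap.ext fun y => mul_assoc _ _ _))
  exact Helper32.NO.OrbFull.main O h2 e he her x ⟨h1, h2', h3⟩ D E ⟨k1, k2, k3, k4, k5⟩ hne
    ⟨fun _ _ => n1.equiv _ _, fun q hq Q hQ b hb _ _ => (n2 q hq Q hQ b hb).equiv _ _, n3⟩ j hj hje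

end Pool.Agent.Results.MP_363b1d_al.NilpotentOrb
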