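import Mathlib
import Pool.Agent.Helper44.S3.Crisp

/-!
# Conjecture C of Sambale, and its orbit-wise form, for all finite solvable groups

`O` is a valuation ring of `ℂ` with `2` in its maximal ideal and residue field `k`.  The
Frobenius-Schur indicator of the projective indecomposable character `Φ` of a real non-principal
`2`-block with exactly one irreducible Brauer character of a finite solvable group `G` is the number
of involutions in `E ∖ D`, where `(D, E)` is the defect pair, `D ≠ E`; and for every `u` with
`u² = 1` the multiplicity of the trivial character in the restriction of `Φ` to `C_G(u)` is the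
number of the conjugates of `u` in `E ∖ D`.
-/

open scoped BigOperators
open Classical

namespace Pool.Agent.Results.MP_363b1d_al.Solvable

section Definitions

variable {R : Type} [CommRing R] {G : Type} [Group G]

/-- The group element `g` as an element of `R[G]`. -/
noncomputable def el (R : Type) [CommRing R] {G : Type} [Group G] (g : G) : MonoidAlgebra R G :=
  MonoidAlgebra.single g 1

/-- The inversion `∑ a_g g ↦ ∑ a_g g⁻¹` of `R[G]`. -/
noncomputable def inv' (a : MonoidAlgebra R G) : MonoidAlgebra R G :=
  MonoidAlgebra.mapDomain (fun g => g⁻¹) a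

/-- `b` is a block idempotent of `R[G]`: a primitive idempotent of the centre. -/
def IsBlock (b : MonoidAlgebra R G) : Prop :=
  b ≠ 0 ∧ b * b = b ∧ (∀ a, a * b = b * a) ∧
    ∀ f : MonoidAlgebra R G, f * f = f → (∀ a, a * f = f * a) → f * b = 0 ∨ f * b = b

/-- `j` is a primitive idempotent of `R[G]`. -/
def IsPrimitiveIdem (j : MonoidAlgebra R G) : Prop :=
  j ≠ 0 ∧ j * j = j ∧ ∀ f, f * f = f → f * j = f → j * f = f → f = 0 ∨ f = j

/-- The reduction `R[G] → k[G]` modulo the maximal ideal of the local ring `R`. -/
noncomputable def toK [IsLocalRing R] :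
    MonoidAlgebra R G →+* MonoidAlgebra (IsLocalRing.ResidueField R) G :=
  MonoidAlgebra.mapRingHom G (IsLocalRing.residue R)

/-- The class sum of `x`. -/
noncomputable def classSum (R : Type) [CommRing R] {G : Type} [Group G] [Fintype G] (x : G) :
    MonoidAlgebra R G :=
  ∑ g ∈ Finset.univ.filter (fun g : G => IsConj x g), el R g

/-- `x` is a defect class representative of the block `e` of `R[G]`: an element of odd order
whose coefficient in `e` is a unit and whose class sum is not nilpotent in `k[G]e`. -/
structure IsDefectClass [IsLocalRing R] [Fintype G] (e : MonoidAlgebra R G) (x : G) : Prop where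
  odd : Odd (orderOf x)
  unit : IsLocalRing.residue R (e.coeff x) ≠ 0
  notNil : ¬ IsNilpotent (toK (classSum R x * e))

/-- `D ≤ E` are Sylow `2`-subgroups of `C_G(x)` and of the extended centraliser of `x`, the group
of all `g` with `g x g⁻¹ = x` or `g x g⁻¹ = x⁻¹`. -/
def IsDefectPair (x : G) (D E : Subgroup G) : Prop :=
  D ≤ E ∧ D ≤ Subgroup.centralizer {x} ∧ (∀ g ∈ E, g * x * g⁻¹ = x ∨ g * x * g⁻¹ = x⁻¹) ∧
    Nat.card D = 2 ^ (Nat.card (Subgroup.centralizer {x})).factorization 2 ∧
    Nat.card E = 2 ^ (Nat.card {g : G // g * x * g⁻¹ = x ∨ g * x * g⁻¹ = x⁻¹}).factorization 2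

/-- Any two irreducible representations of `H` over `k` in which `b` acts as the identity are
equivalent. -/
structure OneSimple {k : Type} [Field k] {H : Type} [Group H] (b : MonoidAlgebra k H) : Prop where
  equiv : ∀ (V W : Type) [AddCommGroup V] [Module k V] [AddCommGroup W] [Module k W]
    (ρ : Representation k H V) (σ : Representation k H W), ρ.IsIrreducible → σ.IsIrreducible →
      ρ.asAlgebraHom b = 1 → σ.asAlgebraHom b = 1 → Nonempty (ρ.Equiv σ)

/-- `Φ` is the character of the projective `R[G]`-module `R[G] j`: `Φ(g)` is the trace of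
`x ↦ g x j` on `ℂ[G]`. -/
structure IsPim [Algebra R ℂ] (j : MonoidAlgebra R G) (Φ : G → ℂ) : Prop where
  eq : ∀ g, Φ g = LinearMap.trace ℂ (MonoidAlgebra ℂ G)
    (LinearMap.mulLeftRight ℂ (el ℂ g, MonoidAlgebra.mapRingHom G (algebraMap R ℂ) j))

end Definitions

/-- Q1 and its orbit-wise form for all finite solvable groups. -/
theorem result (O : ValuationSubring ℂ) (h2 : (2 : O) ∈ IsLocalRing.maximalIdeal O)
    {G : Type} [Group G] [Fintype G] (hsol : Group.IsSolvable G)
    -- a real block `e` of `O[G]` with exactly one irreducible Brauer character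
    (e : MonoidAlgebra O G) (he : IsBlock e) (her : inv' e = e) (hone : OneSimple (toK e))
    -- with defect pair `(D, E)`, `D ≠ E`
    (x : G) (hx : IsDefectClass e x) (D E : Subgroup G) (hDE : IsDefectPair x D E)
    (hne : D ≠ E)
    -- the projective indecomposable character `Φ` of the block, afforded by `O[G] j`
    (j : MonoidAlgebra O G) (hj : IsPrimitiveIdem j) (hje : j * e = j)
    (Φ : G → ℂ) (hΦ : IsPim j Φ) :
    (∑ g : G, Φ (g * g)) / (Nat.card G : ℂ) =
      (Nat.card {y : G // y ∈ E ∧ y ∉ D ∧ y * y = 1} : ℂ) ∧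
    -- the orbit-wise identity
    ∀ u : G, u * u = 1 → (∑ s : Subgroup.centralizer {u}, Φ s) /
        (Nat.card (Subgroup.centralizer {u}) : ℂ) =
      (Nat.card {y : G // y ∈ E ∧ y ∉ D ∧ IsConj u y} : ℂ) := by
  obtain ⟨h1, h2', h3⟩ := hx
  obtain ⟨k1, k2, k3, k4, k5⟩ := hDE
  obtain rfl : Φ = Helper36.NB.pim O j := funext fun g =>
    (hΦ.eq g).trans (congrArg _ (LinearMap.ext fun y => mul_assoc _ _ _))
  exact Helper44.S3.crisp_solvable O h2 hsol e he her (fun _ _ => hone.equiv _ _) x
    ⟨h1, h2', h3⟩ D E ⟨k1, k2, k3, k4, k5⟩ hne j hj hje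

end Pool.Agent.Results.MP_363b1d_al.Solvable
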